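import Mathlib

/-!
# A section-ratio criterion for the LCM property of finite `p`-groups

If a finite `p`-group `G` is not an LCM-group, choose a subgroup `H` minimal with the property that
for some `N = p ^ k` the elements `g` of `H` with `g ^ N = 1` are not closed under multiplication.
Then `H` has two distinct subgroups `A`, `B` of index `p` all of whose elements satisfy `g ^ N = 1`,
and no element of `A \ B` or `B \ A` lies in `LCM(H)`. Hence `lcm(H) ≤ 1 - 2 (p - 1) / p ^ 2`.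
-/

set_option autoImplicit false

namespace Pool.Agent.Results.MP_391eb1_al.SectionRatio

universe u

/-- The set `LCM(G)` of all `x` such that `o(x ^ n * y)` divides `lcm(o(x ^ n), o(y))` for all
positive integers `n` and all `y` in `G`. -/
def lcmSet (G : Type u) [Group G] : Set G :=
  {x | ∀ n : ℕ, 0 < n → ∀ y : G, orderOf (x ^ n * y) ∣ Nat.lcm (orderOf (x ^ n)) (orderOf y)}

/-- `G` is an LCM-group if `LCM(G) = G`. -/
def IsLCMGroup (G : Type u) [Group G] : Prop := lcmSet G = Set.univ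

/-- The ratio `lcm(G) = |LCM(G)| / |G|`. -/
noncomputable def lcmRatio (G : Type u) [Group G] : ℝ := (lcmSet G).ncard / Nat.card G

/-- `lcm*(G)`, the infimum (for finite `G`, the minimum) of `lcm(S)` over all sections
`S = H ⧸ K` of `G`. -/
noncomputable def lcmStar (G : Type u) [Group G] : ℝ :=
  sInf {r : ℝ | ∃ (H : Subgroup G) (K : Subgroup H) (_ : K.Normal), r = lcmRatio (H ⧸ K)}

theorem lcmRatio_congr {G H : Type u} [Group G] [Group H] (e : G ≃* H) :
    lcmRatio G = lcmRatio H := by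
  have h1 : lcmSet H = e '' lcmSet G := by
    ext x
    constructor
    · intro hx
      refine ⟨e.symm x, fun n hn y => ?_, e.apply_symm_apply x⟩
      have := hx n hn (e y)
      rw [← MulEquiv.orderOf_eq e, ← MulEquiv.orderOf_eq e, ← MulEquiv.orderOf_eq e y]
      simpa using this
    · rintro ⟨z, hz, rfl⟩ n hn y
      have := hz n hn (e.symm y)
      rw [← MulEquiv.orderOf_eq e, ← MulEquiv.orderOf_eq e, ← MulEquiv.orderOf_eq e (e.symm y)]
        at this
      simpa using this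
  unfold lcmRatio
  rw [h1, Set.ncard_image_of_injective _ e.injective, Nat.card_congr e.toEquiv]

theorem lcmRatio_nonneg (G : Type u) [Group G] : 0 ≤ lcmRatio G := by
  unfold lcmRatio; positivity

section Count

variable {G : Type u} [Group G]

theorem exists_index_p [Finite G] {p : ℕ} [Fact p.Prime] (hG : IsPGroup p G) (x : G)
    (hx : Subgroup.zpowers x ≠ ⊤) : ∃ M : Subgroup G, M.Normal ∧ M.index = p ∧ x ∈ M := by
  have hp : p.Prime := Fact.out
  obtain ⟨n, hn⟩ := hG.exists_card_eq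
  obtain ⟨a, ha⟩ := (hG.to_subgroup (Subgroup.zpowers x)).exists_card_eq
  have hlt : a < n := by
    have h1 : Nat.card (Subgroup.zpowers x) < Nat.card G := by
      refine lt_of_le_of_ne (Subgroup.card_le_card_group _) fun h => hx ?_
      exact Subgroup.eq_top_of_card_eq _ h
    rw [ha, hn] at h1
    exact (Nat.pow_lt_pow_iff_right hp.one_lt).1 h1
  obtain ⟨M, hM, hle⟩ := Sylow.exists_subgroup_card_pow_prime_le p (n := a) (m := n - 1)
    (hn ▸ pow_dvd_pow p (Nat.sub_le _ _)) (Subgroup.zpowers x) ha (by omega)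
  have hidx : M.index = p := by
    have h1 := M.card_mul_index
    rw [hM, hn] at h1
    have h2 : p ^ n = p ^ (n - 1) * p := by
      rw [← pow_succ]; congr 1; omega
    rw [h2] at h1
    exact Nat.eq_of_mul_eq_mul_left (pow_pos hp.pos _) h1
  refine ⟨M, ?_, hidx, hle (Subgroup.mem_zpowers x)⟩
  apply Subgroup.normal_of_index_eq_minFac_card
  rw [hidx, hn, hp.pow_minFac (by omega)]

theorem key {p : ℕ} [Fact p.Prime] {N : ℕ} {x y : G} (hgen : Subgroup.closure {x, y} = ⊤)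
    (hx : x ^ N = 1) (hy : y ^ N = 1) (M : Subgroup G) (hMn : M.Normal) (hMi : M.index = p)
    (hxM : x ∈ M) (hyM : y ∉ M)
    (hmin : ∀ a ∈ M, ∀ b ∈ M, a ^ N = 1 → b ^ N = 1 → (a * b) ^ N = 1) :
    ∀ g ∈ M, g ^ N = 1 := by
  have hp : p.Prime := Fact.out
  let B : Subgroup G :=
    { carrier := {g | g ∈ M ∧ g ^ N = 1}
      mul_mem' := fun {a b} ha hb => ⟨mul_mem ha.1 hb.1, hmin a ha.1 b hb.1 ha.2 hb.2⟩
      one_mem' := ⟨one_mem _, one_pow _⟩
      inv_mem' := fun {a} ha => ⟨inv_mem ha.1, by rw [inv_pow, ha.2, inv_one]⟩ }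
  have hBn : B.Normal := ⟨fun n hn g => ⟨hMn.conj_mem n hn.1 g, by
    rw [conj_pow, hn.2, mul_one, mul_inv_cancel]⟩⟩
  have htop : B ⊔ Subgroup.zpowers y = ⊤ := by
    rw [eq_top_iff, ← hgen, Subgroup.closure_le]
    rintro z (rfl | rfl)
    · exact Subgroup.mem_sup_left ⟨hxM, hx⟩
    · exact Subgroup.mem_sup_right (Subgroup.mem_zpowers _)
  have hord : orderOf (y : G ⧸ M) = p := by
    have h1 : orderOf (y : G ⧸ M) ∣ p := by
      rw [← hMi]
      exact orderOf_dvd_natCard _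
    rcases (Nat.dvd_prime hp).1 h1 with h2 | h2
    · rw [orderOf_eq_one_iff, QuotientGroup.eq_one_iff] at h2
      exact absurd h2 hyM
    · exact h2
  have hypM : y ^ p ∈ M := by
    rw [← QuotientGroup.eq_one_iff, QuotientGroup.mk_pow, ← hord]
    exact pow_orderOf_eq_one _
  have hypB : y ^ p ∈ B := ⟨hypM, by rw [← pow_mul, mul_comm, pow_mul, hy, one_pow]⟩
  intro g hg
  have hg' : g ∈ B ⊔ Subgroup.zpowers y := htop ▸ Subgroup.mem_top g
  obtain ⟨b, hb, z, hz, rfl⟩ := Subgroup.mem_sup_of_normal_left.1 hg'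
  obtain ⟨j, rfl⟩ := Subgroup.mem_zpowers_iff.1 hz
  have hzM : y ^ j ∈ M := by
    have : b⁻¹ * (b * y ^ j) ∈ M := mul_mem (inv_mem hb.1) hg
    simpa using this
  have hj : (p : ℤ) ∣ j := by
    rw [← hord, orderOf_dvd_iff_zpow_eq_one, ← QuotientGroup.mk_zpow, QuotientGroup.eq_one_iff]
    exact hzM
  obtain ⟨i, rfl⟩ := hj
  have hzB : y ^ ((p : ℤ) * i) ∈ B := by
    rw [zpow_mul, zpow_natCast]
    exact zpow_mem hypB i
  exact (mul_mem hb hzB).2

theorem not_mem_lcmSet [Finite G] {p : ℕ} [Fact p.Prime] {N : ℕ} {x y : G} (M1 M2 : Subgroup G)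
    (hM2n : M2.Normal) (hM2i : M2.index = p)
    (hx2 : x ∉ M2) (hy2 : y ∈ M2) (h1 : ∀ g ∈ M1, g ^ N = 1) (h2 : ∀ g ∈ M2, g ^ N = 1)
    (hxy : (x * y) ^ N ≠ 1) {g : G} (hg1 : g ∈ M1) (hg2 : g ∉ M2) : g ∉ lcmSet G := by
  have hp : p.Prime := Fact.out
  intro hg
  have hcard : Nat.card (G ⧸ M2) = p := hM2i
  have hgne : (g : G ⧸ M2) ≠ 1 := fun h => hg2 ((QuotientGroup.eq_one_iff g).1 h)
  have hx' : (x : G ⧸ M2) ∈ Subgroup.zpowers (g : G ⧸ M2) :=
    mem_zpowers_of_prime_card (p := p) hcard hgne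
  rw [← mem_powers_iff_mem_zpowers, Submonoid.mem_powers_iff] at hx'
  obtain ⟨n, hn⟩ := hx'
  have hn0 : 0 < n := by
    rcases Nat.eq_zero_or_pos n with h0 | h0
    · rw [h0, pow_zero] at hn
      exact absurd ((QuotientGroup.eq_one_iff x).1 hn.symm) hx2
    · exact h0
  rw [← QuotientGroup.mk_pow, QuotientGroup.eq] at hn
  have hz : (g ^ n)⁻¹ * x * y ∈ M2 := mul_mem hn hy2
  have h3 := hg n hn0 ((g ^ n)⁻¹ * x * y)
  have h4 : g ^ n * ((g ^ n)⁻¹ * x * y) = x * y := by group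
  rw [h4] at h3
  have h5 : Nat.lcm (orderOf (g ^ n)) (orderOf ((g ^ n)⁻¹ * x * y)) ∣ N :=
    Nat.lcm_dvd (orderOf_dvd_of_pow_eq_one (h1 _ (pow_mem hg1 n)))
      (orderOf_dvd_of_pow_eq_one (h2 _ hz))
  exact hxy (orderOf_dvd_iff_pow_eq_one.1 (h3.trans h5))

theorem count [Finite G] {p : ℕ} [Fact p.Prime] (hG : IsPGroup p G) {N : ℕ} {x y : G}
    (hx : x ^ N = 1) (hy : y ^ N = 1) (hxy : (x * y) ^ N ≠ 1)
    (hmin : ∀ K : Subgroup G, K ≠ ⊤ → ∀ a ∈ K, ∀ b ∈ K, a ^ N = 1 → b ^ N = 1 →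
      (a * b) ^ N = 1) :
    ∃ m : ℕ, 0 < m ∧ Nat.card G = p ^ 2 * m ∧
      (lcmSet G).ncard + 2 * ((p - 1) * m) ≤ Nat.card G := by
  have hp : p.Prime := Fact.out
  have hgen : Subgroup.closure {x, y} = ⊤ := by
    by_contra h
    exact hxy (hmin _ h x (Subgroup.subset_closure (by simp)) y
      (Subgroup.subset_closure (by simp)) hx hy)
  have hyx : (y * x) ^ N ≠ 1 := by
    intro h
    apply hxy
    have : (x * y) = y⁻¹ * (y * x) * y⁻¹⁻¹ := by group
    rw [this, conj_pow, h]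
    group
  have hzx : Subgroup.zpowers x ≠ ⊤ := by
    intro h
    have hyz : y ∈ Subgroup.zpowers x := h ▸ Subgroup.mem_top y
    obtain ⟨j, rfl⟩ := Subgroup.mem_zpowers_iff.1 hyz
    apply hxy
    have hc : Commute x (x ^ j) := (Commute.refl x).zpow_right j
    rw [hc.mul_pow, hx, hy, one_mul]
  have hzy : Subgroup.zpowers y ≠ ⊤ := by
    intro h
    have hyz : x ∈ Subgroup.zpowers y := h ▸ Subgroup.mem_top x
    obtain ⟨j, rfl⟩ := Subgroup.mem_zpowers_iff.1 hyz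
    apply hyx
    have hc : Commute y (y ^ j) := (Commute.refl y).zpow_right j
    rw [hc.mul_pow, hx, hy, one_mul]
  obtain ⟨M1, hM1n, hM1i, hx1⟩ := exists_index_p hG x hzx
  obtain ⟨M2, hM2n, hM2i, hy2⟩ := exists_index_p hG y hzy
  have hM1t : M1 ≠ ⊤ := by
    rintro rfl
    rw [Subgroup.index_top] at hM1i
    exact hp.one_lt.ne hM1i
  have hM2t : M2 ≠ ⊤ := by
    rintro rfl
    rw [Subgroup.index_top] at hM2i
    exact hp.one_lt.ne hM2i
  have hy1 : y ∉ M1 := by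
    intro h
    apply hM1t
    rw [eq_top_iff, ← hgen, Subgroup.closure_le]
    rintro z (rfl | rfl)
    · exact hx1
    · exact h
  have hx2 : x ∉ M2 := by
    intro h
    apply hM2t
    rw [eq_top_iff, ← hgen, Subgroup.closure_le]
    rintro z (rfl | rfl)
    · exact h
    · exact hy2
  have hgen' : Subgroup.closure {y, x} = ⊤ := by rw [Set.pair_comm]; exact hgen
  have hA1 := key hgen hx hy M1 hM1n hM1i hx1 hy1 (hmin M1 hM1t)
  have hA2 := key hgen' hy hx M2 hM2n hM2i hy2 hx2 (hmin M2 hM2t)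
  have hsup : M1 ⊔ M2 = ⊤ := by
    rw [eq_top_iff, ← hgen, Subgroup.closure_le]
    rintro z (rfl | rfl)
    · exact Subgroup.mem_sup_left hx1
    · exact Subgroup.mem_sup_right hy2
  have hrel : (M1 ⊓ M2).relIndex M1 = p := by
    rw [Subgroup.inf_relIndex_left, ← Subgroup.relIndex_sup_right, hsup, Subgroup.relIndex_top_right,
      hM2i]
  have hidx : (M1 ⊓ M2).index = p * p := by
    rw [← Subgroup.relIndex_mul_index (inf_le_left : M1 ⊓ M2 ≤ M1), hrel, hM1i]
  set m := Nat.card (M1 ⊓ M2 : Subgroup G) with hm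
  have hm0 : 0 < m := Nat.card_pos
  have hcG : Nat.card G = p ^ 2 * m := by
    rw [← (M1 ⊓ M2).card_mul_index, hidx]
    ring
  have hc1 : Nat.card M1 = p * m := by
    have h := M1.card_mul_index
    rw [hM1i, hcG] at h
    exact Nat.eq_of_mul_eq_mul_right hp.pos (by rw [h]; ring)
  have hc2 : Nat.card M2 = p * m := by
    have h := M2.card_mul_index
    rw [hM2i, hcG] at h
    exact Nat.eq_of_mul_eq_mul_right hp.pos (by rw [h]; ring)
  refine ⟨m, hm0, hcG, ?_⟩
  set S1 : Set G := (M1 : Set G) \ (M1 ⊓ M2 : Subgroup G) with hS1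
  set S2 : Set G := (M2 : Set G) \ (M1 ⊓ M2 : Subgroup G) with hS2
  have hn1 : S1.ncard = (p - 1) * m := by
    rw [hS1, Set.ncard_sdiff (by intro z hz; exact hz.1), ← Nat.card_coe_set_eq,
      ← Nat.card_coe_set_eq]
    have e1 : Nat.card ((M1 : Set G)) = p * m := hc1
    have e2 : Nat.card ((M1 ⊓ M2 : Subgroup G) : Set G) = m := rfl
    rw [e1, e2, Nat.sub_mul, one_mul]
  have hn2 : S2.ncard = (p - 1) * m := by
    rw [hS2, Set.ncard_sdiff (by intro z hz; exact hz.2), ← Nat.card_coe_set_eq,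
      ← Nat.card_coe_set_eq]
    have e1 : Nat.card ((M2 : Set G)) = p * m := hc2
    have e2 : Nat.card ((M1 ⊓ M2 : Subgroup G) : Set G) = m := rfl
    rw [e1, e2, Nat.sub_mul, one_mul]
  have hd12 : Disjoint S1 S2 := by
    rw [Set.disjoint_left]
    rintro z ⟨hz1, hz2⟩ ⟨hz3, _⟩
    exact hz2 ⟨hz1, hz3⟩
  have hd : Disjoint (lcmSet G) (S1 ∪ S2) := by
    rw [Set.disjoint_left]
    rintro g hg (⟨hz1, hz2⟩ | ⟨hz1, hz2⟩)
    · exact not_mem_lcmSet M1 M2 hM2n hM2i hx2 hy2 hA1 hA2 hxy hz1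
        (fun h => hz2 ⟨hz1, h⟩) hg
    · exact not_mem_lcmSet M2 M1 hM1n hM1i hy1 hx1 hA2 hA1 hyx hz1
        (fun h => hz2 ⟨h, hz1⟩) hg
  have h1 : (lcmSet G ∪ (S1 ∪ S2)).ncard = (lcmSet G).ncard + (S1.ncard + S2.ncard) := by
    rw [Set.ncard_union_eq hd, Set.ncard_union_eq hd12]
  have h2 : (lcmSet G ∪ (S1 ∪ S2)).ncard ≤ Nat.card G := by
    rw [← Set.ncard_univ]
    exact Set.ncard_le_ncard (Set.subset_univ _)
  rw [h1, hn1, hn2] at h2
  omega

end Count

/-- The constant of the criterion. -/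
noncomputable def cst (p : ℕ) : ℝ := 1 - 2 * ((p : ℝ) - 1) / (p : ℝ) ^ 2

theorem ratio_le {G : Type u} [Group G] [Finite G] {p : ℕ} [Fact p.Prime] (hG : IsPGroup p G)
    {N : ℕ} {x y : G}
    (hx : x ^ N = 1) (hy : y ^ N = 1) (hxy : (x * y) ^ N ≠ 1)
    (hmin : ∀ K : Subgroup G, K ≠ ⊤ → ∀ a ∈ K, ∀ b ∈ K, a ^ N = 1 → b ^ N = 1 →
      (a * b) ^ N = 1) : lcmRatio G ≤ cst p := by
  have hp : p.Prime := Fact.out
  obtain ⟨m, hm, hcard, hle⟩ := count hG hx hy hxy hmin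
  have hp0 : (0 : ℝ) < p := by exact_mod_cast hp.pos
  have hm0 : (0 : ℝ) < m := by exact_mod_cast hm
  have h1 : ((lcmSet G).ncard : ℝ) + 2 * (((p : ℝ) - 1) * m) ≤ (p : ℝ) ^ 2 * m := by
    have h2 : (((lcmSet G).ncard + 2 * ((p - 1) * m) : ℕ) : ℝ) ≤ ((p ^ 2 * m : ℕ) : ℝ) := by
      exact_mod_cast hcard ▸ hle
    push_cast [Nat.cast_sub hp.one_le] at h2
    exact h2
  unfold lcmRatio cst
  rw [hcard]
  push_cast
  rw [div_le_iff₀ (by positivity)]
  have h3 : (1 - 2 * ((p : ℝ) - 1) / (p : ℝ) ^ 2) * ((p : ℝ) ^ 2 * m) =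
      (p : ℝ) ^ 2 * m - 2 * (((p : ℝ) - 1) * m) := by
    field_simp
  rw [h3]
  linarith

theorem exists_subgroup {p : ℕ} [Fact p.Prime] (n : ℕ) :
    ∀ (G : Type u) [Group G] [Finite G], Nat.card G = n → IsPGroup p G → ¬ IsLCMGroup G →
      ∃ H : Subgroup G, lcmRatio H ≤ cst p := by
  have hp : p.Prime := Fact.out
  induction n using Nat.strong_induction_on with
  | _ n ih =>
    intro G _ _ hn hG hL
    have h1 : ∃ a y : G, ¬ orderOf (a * y) ∣ Nat.lcm (orderOf a) (orderOf y) := by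
      unfold IsLCMGroup at hL
      rw [Set.eq_univ_iff_forall] at hL
      push Not at hL
      obtain ⟨x, hx⟩ := hL
      unfold lcmSet at hx
      simp only [Set.mem_ofPred_eq] at hx
      push Not at hx
      obtain ⟨k, -, y, hy⟩ := hx
      exact ⟨x ^ k, y, hy⟩
    obtain ⟨a, y, hay⟩ := h1
    set N := Nat.lcm (orderOf a) (orderOf y) with hN
    have ha : a ^ N = 1 := orderOf_dvd_iff_pow_eq_one.1 (Nat.dvd_lcm_left _ _)
    have hy : y ^ N = 1 := orderOf_dvd_iff_pow_eq_one.1 (Nat.dvd_lcm_right _ _)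
    have hay' : (a * y) ^ N ≠ 1 := fun h => hay (orderOf_dvd_of_pow_eq_one h)
    by_cases hmin : ∀ K : Subgroup G, K ≠ ⊤ → ∀ a ∈ K, ∀ b ∈ K, a ^ N = 1 → b ^ N = 1 →
      (a * b) ^ N = 1
    · refine ⟨⊤, ?_⟩
      rw [lcmRatio_congr (Subgroup.topEquiv : (⊤ : Subgroup G) ≃* G)]
      exact ratio_le hG ha hy hay' hmin
    · push Not at hmin
      obtain ⟨K, hK, b, hb, c, hc, hbN, hcN, hbc⟩ := hmin
      have hKL : ¬ IsLCMGroup K := by
        intro h
        have h2 : (⟨b, hb⟩ : K) ∈ lcmSet K := h ▸ Set.mem_univ _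
        have h3 := h2 1 one_pos ⟨c, hc⟩
        rw [pow_one] at h3
        have h4 : Nat.lcm (orderOf (⟨b, hb⟩ : K)) (orderOf (⟨c, hc⟩ : K)) ∣ N := by
          apply Nat.lcm_dvd
          · rw [Subgroup.orderOf_mk]; exact orderOf_dvd_of_pow_eq_one hbN
          · rw [Subgroup.orderOf_mk]; exact orderOf_dvd_of_pow_eq_one hcN
        have h5 := h3.trans h4
        have h6 : orderOf ((⟨b, hb⟩ : K) * ⟨c, hc⟩) = orderOf (b * c) := by
          rw [← Subgroup.orderOf_coe]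
          rfl
        rw [h6] at h5
        exact hbc (orderOf_dvd_iff_pow_eq_one.1 h5)
      have hlt : Nat.card K < n := by
        rw [← hn]
        refine lt_of_le_of_ne (Subgroup.card_le_card_group _) fun h => hK ?_
        exact Subgroup.eq_top_of_card_eq _ h
      obtain ⟨H, hH⟩ := ih _ hlt K rfl (hG.to_subgroup K) hKL
      refine ⟨H.map K.subtype, ?_⟩
      rw [← lcmRatio_congr (H.equivMapOfInjective K.subtype K.subtype_injective)]
      exact hH

/-- For every prime `p` the number `c = 1 - 2 (p - 1) / p ^ 2` lies in `(0, 1)` and every finite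
`p`-group `G` with `lcm*(G) > c` is an LCM-group. -/
theorem result (p : ℕ) (hp : p.Prime) :
    0 < 1 - 2 * ((p : ℝ) - 1) / (p : ℝ) ^ 2 ∧ 1 - 2 * ((p : ℝ) - 1) / (p : ℝ) ^ 2 < 1 ∧
      ∀ (G : Type u) [Group G] [Finite G], IsPGroup p G →
        1 - 2 * ((p : ℝ) - 1) / (p : ℝ) ^ 2 < lcmStar G → IsLCMGroup G := by
  have hp1 : (1 : ℝ) < p := by exact_mod_cast hp.one_lt
  have hp0 : (0 : ℝ) < p := by linarith
  refine ⟨?_, ?_, ?_⟩
  · have : 2 * ((p : ℝ) - 1) / (p : ℝ) ^ 2 < 1 := by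
      rw [div_lt_one (by positivity)]
      nlinarith [sq_nonneg ((p : ℝ) - 1)]
    linarith
  · have : 0 < 2 * ((p : ℝ) - 1) / (p : ℝ) ^ 2 := by
      apply div_pos
      · linarith
      · positivity
    linarith
  · intro G _ _ hG hc
    by_contra hL
    have : Fact p.Prime := ⟨hp⟩
    obtain ⟨H, hH⟩ := exists_subgroup (p := p) _ G rfl hG hL
    have h1 : lcmStar G ≤ lcmRatio (H ⧸ (⊥ : Subgroup H)) := by
      refine csInf_le ⟨0, ?_⟩ ⟨H, ⊥, inferInstance, rfl⟩
      rintro r ⟨H', K', _, rfl⟩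
      exact lcmRatio_nonneg _
    rw [lcmRatio_congr (QuotientGroup.quotientBot (G := H))] at h1
    unfold cst at hH
    linarith

end Pool.Agent.Results.MP_391eb1_al.SectionRatio
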